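import Mathlib
import Pool.Agent.Run7.h413.DN.Upper

/-!
# OMV over the field with two elements: deep networks whose gates share real values

The decision version of OMV over `ZMod 2`: given an `n × n` matrix `M` and `n` pairs `(u_i, v_i)`
of vectors, is some product `u_iᵀ M v_i` equal to one (`product`)? The items of the input are the
matrix and the pairs.

*Networks* (`Net`). The nodes carry real numbers of unlimited precision, and **the value of a node
may be used by any number of other nodes**. The gates are leaves (arbitrary real functions of one
item, or of `w` words of `c` bits, each of which is an arbitrary function of one item), weighted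
sums of any number of inputs (`lin`), products of two inputs (`mul`), maxima of any number of
inputs (`max`), and symmetric gates (`sym`), whose value is an arbitrary function of the number of
the positive inputs. So deep networks of rectified linear units, threshold gates, minima, maxima
and products are included. A network accepts if the value of the output node is positive. The
inputs of a gate have smaller levels; the depth is at most `d` if all levels are at most `d`
(`DepthLE`).

*Cost.* For each of the `n` pairs we count the leaves which see it, and the wires which leave a
node that depends on it (`traffic`). The cost is the sum of these numbers. So a wire pays the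
number of the pairs on which its source depends; everything that depends on the matrix only is
free.

(1) Random networks of depth at most `d` with error probability at most `1 / 3` have cost `s` with
`n ^ 3 ≤ 700 (w c + d (d + log₂ n)) s`.
(2) Multiplication by words of length `c` is a network of depth `2`, with `w = 2`, words of `c + 1`
bits and of cost at most `2 n ^ 2 (⌊n / c⌋ + 1) + n`.

So (1) is optimal up to a constant factor for all `c` between `d (d + log₂ n)` and `n`; and the
cost is `n ^ (3 - o (1))` for all depths `d = n ^ o (1)` and words of `n ^ o (1)` bits.

Proof. The pair `(u_i, v_i)` can ask for each of the `n ^ 2` entries of the matrix. Fix all other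
items (Nechiporuk's method). If `r` leaves and wires depend on the pair, then the other items enter
by at most `2 r` real parameters: the rest of a weighted sum, the other factor, the maximum of the
other inputs, or the possible values of a symmetric gate. If the values of the nodes of level less
than `t` are polynomials of degree at most `2 ^ t` in the parameters, then Warren's theorem bounds
the number of the results of all comparisons at the next level. In this way one passes through the
levels (as in the bounds of Bartlett, Maiorov and Meir for the VC dimension of networks), and there
are at most `(q ^ (w - 1) (n ^ O (1) 2 ^ d) ^ (2 (d + 2))) ^ r` functions of the pair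
(`Run7.h413.DN.Core`, `Run7.h413.DN.Sub`).
-/

set_option autoImplicit false

namespace Pool.Agent.Results.MP_0f1f76_lc.DeepNetworks

open Pool.Agent.TH697.Form (IsProb)
open Pool.Agent.TH697.Row (ApproximatesOn)
open Pool.Agent.Y638.RF.Xor (Item product)
open Run7.h413.DN (Net)
open Run7.h413.DN.OMv (pairs)

theorem result :
    (∀ n c w d : ℕ, 32 ≤ n → 1 ≤ c → 1 ≤ w → 1 ≤ d →
      ∀ (Ω : Type) [Fintype Ω] (μ : Ω → ℝ), IsProb μ →
        ∀ (s : ℕ) (C : Ω → Net (Option (Fin n)) (Item n) w (2 ^ c)),
          (∀ ω, (C ω).DepthLE d) → (∀ ω, (C ω).cost (pairs n) ≤ s) →
          ApproximatesOn μ (fun ω => (C ω).eval) (fun _ => True) (product n) →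
          (n : ℝ) ^ 3 ≤ 700 * (w * c + d * (d + Real.logb 2 n)) * s) ∧
    (∀ n c : ℕ, 1 ≤ c → ∃ C : Net (Option (Fin n)) (Item n) 2 (2 ^ (c + 1)), C.DepthLE 2 ∧
      C.cost (pairs n) ≤ 2 * n ^ 2 * (n / c + 1) + n ∧ ∀ x, C.eval x = product n x) :=
  ⟨fun _ _ _ _ hn hc hw hd _ _ μ hμ s C hdep hs hC =>
    Run7.h413.DN.OMv.bound_of _ (fun i => Pool.Agent.Y638.RF.Xor.asks i) hn hc hw hd μ hμ s C hdep
      hs hC,
    fun n _ hc => Run7.h413.DN.OMv.xor_upper n hc⟩

end Pool.Agent.Results.MP_0f1f76_lc.DeepNetworks
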