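import Mathlib
import Pool.Agent.Run7.h413.FN.Upper

/-!
# OMV over the field with two elements: networks over an arbitrary field whose gates share values

The decision version of OMV over `ZMod 2`: given an `n × n` matrix `M` and `n` pairs `(u_i, v_i)`
of vectors, is some product `u_iᵀ M v_i` equal to one (`product`)? The items of the input are the
matrix and the pairs.

*Networks* (`Net`). The nodes carry elements of an arbitrary field `K` (of any characteristic,
finite or infinite; in particular `K` may be the field with two elements), and **the value of a
node may be used by any number of other nodes**. The gates are leaves (arbitrary functions with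
values in `K` of one item, or of `w` words of `c` bits, each of which is an arbitrary function of
one item), weighted sums of any number of inputs (`lin`), products of two inputs (`mul`), and gates
`sym` of any fan-in, whose value is an arbitrary function of the number of the inputs which are not
zero (so `sym` contains zero tests, threshold and parity gates of bits). A network accepts if the
value of the output node is not zero.

*Parameters.* The number of the gates on a path is **not** bounded. The gates `sym` are nested at
most `t` times (`TestDepthLE`), and between them the formal degree is at most `g` (`DegreeLE`): the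
degree of a product is at least the sum of the degrees of its factors; the degree of a leaf or of
a gate `sym` may be one. So arithmetic circuits of any depth over `K` are included, for example
fast multiplication of matrices.

*Cost.* For each of the `n` pairs we count the leaves which see it, and the wires which leave a
node that depends on it (`traffic`). The cost is the sum of these numbers. So a wire pays the
number of the pairs on which its source depends; everything that depends on the matrix only is
free.

(1) Random networks with error probability at most `1 / 3` have cost `s` with
`n ^ 3 ≤ 150 (w c + (t + 1) (log₂ n + log₂ g)) s`.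
(2) For every field, multiplication by words of length `c` is a network with `t = 2`, `g = 1`,
`w = 2`, words of `c + 1` bits and of cost at most `2 n ^ 2 (⌊n / c⌋ + 1) + n`.

So (1) is optimal up to a constant factor for all `c` between `(t + 1) (log₂ n + log₂ g)` and `n`;
and the cost is `n ^ (3 - o (1))` if `w`, `c`, `t` and `log g` are `n ^ o (1)`. Fast multiplication
of matrices does not help, since a wire whose source depends on `k` of the pairs pays `k`.

Proof. The pair `(u_i, v_i)` can ask for each of the `n ^ 2` entries of the matrix. Fix all other
items (Nechiporuk's method). If `r` leaves and wires depend on the pair, then the other items enter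
by at most `2 r` parameters in `K`: the rest of a weighted sum, the other factor of a product, or
the possible values of a gate `sym`. Between two tests the values are polynomials of degree at most
`g` in the parameters, whatever the depth is, and the theorem of Rónyai, Babai and Ganapathy on
zero patterns bounds the number of the results of all tests at the next level. So there are at most
`(q ^ (w - 1) (n ^ 6 g) ^ (2 (t + 1))) ^ r` functions of the pair (`Run7.h413.FN.Core`,
`Run7.h413.FN.Sub`).
-/

set_option autoImplicit false

namespace Pool.Agent.Results.MP_0f1f76_lc.FieldNetworks

open Pool.Agent.TH697.Form (IsProb)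
open Pool.Agent.TH697.Row (ApproximatesOn)
open Pool.Agent.Y638.RF.Xor (Item product)
open Run7.h413.FN (Net)
open Run7.h413.FN.OMv (pairs)

theorem result :
    (∀ n c w t g : ℕ, 32 ≤ n → 1 ≤ c → 1 ≤ w → 1 ≤ g →
      ∀ (K : Type) [Field K] (Ω : Type) [Fintype Ω] (μ : Ω → ℝ), IsProb μ →
        ∀ (s : ℕ) (C : Ω → Net K (Option (Fin n)) (Item n) w (2 ^ c)),
          (∀ ω, (C ω).TestDepthLE t) → (∀ ω, (C ω).DegreeLE g) →
          (∀ ω, (C ω).cost (pairs n) ≤ s) →
          ApproximatesOn μ (fun ω => (C ω).eval) (fun _ => True) (product n) →
          (n : ℝ) ^ 3 ≤ 150 * (w * c + (t + 1) * (Real.logb 2 n + Real.logb 2 g)) * s) ∧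
    (∀ (K : Type) [Field K] (n c : ℕ), 1 ≤ c →
      ∃ C : Net K (Option (Fin n)) (Item n) 2 (2 ^ (c + 1)), C.TestDepthLE 2 ∧ C.DegreeLE 1 ∧
        C.cost (pairs n) ≤ 2 * n ^ 2 * (n / c + 1) + n ∧ ∀ x, C.eval x = product n x) :=
  ⟨fun _ _ _ _ _ hn hc hw hg _ _ _ _ μ hμ s C hT hG hs hC =>
    Run7.h413.FN.OMv.bound_of _ (fun i => Pool.Agent.Y638.RF.Xor.asks i) hn hc hw hg μ hμ s C hT
      hG hs hC,
    fun K _ n _ hc => Run7.h413.FN.OMv.xor_upper K n hc⟩

end Pool.Agent.Results.MP_0f1f76_lc.FieldNetworks
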