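import Mathlib
import Pool.Agent.Run7.h413.MX.OMv

/-!
# OMV over the field with two elements: circuits over real formulas with maximum gates

The decision version of OMV over `ZMod 2`: given an `n × n` matrix `M` and `n` pairs `(u_i, v_i)`
of vectors, is some product `u_iᵀ M v_i` equal to one (`product`)? The items of the input are the
matrix and the pairs. Everything that can be computed from the matrix alone is free.

*Formulas* (`Fml`). The wires carry real numbers of unlimited precision. The leaves are arbitrary
real functions of one item, or of `w` words of `c` bits, each of which is an arbitrary function of
one item. The gates are sums, products, **maxima**, tests of the sign with two arbitrary results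
(`test`), and gates `sym` of any fan-in whose value is an arbitrary function of the number of the
positive inputs. Since constants are free, minima, rectified linear units `max (x, 0)` and clipping
are included: `min (x, y) = - max (- x, - y)`.

*Circuits* (`Circuit`) compute shared bits; each bit is the result of a branching program whose
tests are formulas, and the leaves may also read the bits computed before. A leaf which reads one
of the pairs pays one, readings of the matrix are free, and a reading of a shared bit costs the
number of the pairs on which the bit depends. The cost is the sum of these prices for all leaves,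
plus the number of inner nodes of the branching programs, plus the number of wires which lead to
gates `sym`. All other gates and constants are free.

(1) Random circuits with error probability at most `1 / 3` have cost `s ≥ n ^ 3 / (5000 (w c +
(log₂ n) ^ 2))`.
(2) Multiplication by words of length `c` is a circuit without shared bits, with `w = 2`, words of
`c + 1` bits and of cost at most `4 n ^ 2 (⌊n / c⌋ + 1) + 2`.

So (1) is optimal up to a constant factor for all `c` between `(log₂ n) ^ 2` and `n`.

Proof. The pair `(u_i, v_i)` can ask for each of the `n ^ 2` entries of the matrix. We count the
functions of this pair which arise when the other items are fixed (Nechiporuk's method). Without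
maxima a formula with `r` readings of the pair is, on each sign pattern, a polynomial in `O (r)`
parameters, and Warren's theorem bounds the number of sign patterns. A maximum of two subformulas
with `r'` and `r''` readings multiplies the numbers of their pieces, and this argument gives
nothing. Here only the pieces of the lighter input of each gate are refined by means of Warren's
theorem; a place is then refined at most `log₂ s` times, and the number of functions is `n ^ (O (r
log s))` (`Run7.h413.MX.Cov`, `Run7.h413.MX.Core`). The values of the shared bits are treated one
after the other (`Run7.h413.MX.Prog`).
-/

set_option autoImplicit false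

namespace Pool.Agent.Results.MP_0f1f76_lc.MaximumGates

open Pool.Agent.TH697.Form (IsProb)
open Pool.Agent.TH697.Row (ApproximatesOn)
open Pool.Agent.Y638.RF.Xor (Item product)
open Run7.h413.MX (Circuit)
open Run7.h413.MX.OMv (pairs)

theorem result :
    (∀ n c w : ℕ, 32 ≤ n → 1 ≤ c → 1 ≤ w →
      ∀ (Ω : Type) [Fintype Ω] (μ : Ω → ℝ), IsProb μ →
        ∀ (s : ℕ) (C : Ω → Circuit (Option (Fin n)) (Item n) w (2 ^ c)),
          (∀ ω, (C ω).circ.cost (pairs n) ≤ s) →
          ApproximatesOn μ (fun ω => (C ω).eval) (fun _ => True) (product n) →
          (n : ℝ) ^ 3 ≤ 5000 * (w * c + Real.logb 2 n ^ 2) * s) ∧
    (∀ n c : ℕ, 1 ≤ c → ∃ C : Circuit (Option (Fin n)) (Item n) 2 (2 ^ (c + 1)), C.bits = 0 ∧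
      C.circ.cost (pairs n) ≤ 4 * n ^ 2 * (n / c + 1) + 2 ∧ ∀ x, C.eval x = product n x) :=
  ⟨fun _ _ _ hn hc hw _ _ μ hμ s C hs hC =>
    Run7.h413.MX.OMv.xor_bound hn hc hw μ hμ s C hs hC,
    fun n _ hc => Run7.h413.MX.OMv.xor_upper n hc⟩

end Pool.Agent.Results.MP_0f1f76_lc.MaximumGates
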