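import Mathlib
import Pool.Agent.Run7.h412.SP.OuMv

/-!
# OMV over the field with two elements: span programs which test real formulas

The decision version of OMV over `ZMod 2`: given an `n × n` matrix `M` and `n` pairs `(u_i, v_i)` of
vectors, is some product `u_iᵀ M v_i` equal to one (`product`)? The items of the input are the matrix
and the pairs (so everything that can be computed from the matrix alone is free).

A real formula (`Fml`) is built from real constants, arbitrary real functions of one item, and
arbitrary real functions of `w` words of `c` bits, where each word is an arbitrary
function of one item, by sums, products, sign tests `pos`, and gates `sym` of any fan-in whose value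
is an arbitrary real function of the number of positive inputs. A span program (`SpanProgram`,
Karchmer and Wigderson 1993) over a finite field `K` has vectors of a space `K ^ dim`, each of which
is guarded by a real formula, a subspace of free vectors, and a target vector; it accepts the input if
the target is a linear combination of free vectors and of vectors whose guards accept the input. The
size is the number of the guarded vectors plus the sizes of the guards (leaves, and wires to gates
`sym`); the dimension and the free vectors are not counted. Undirected contact schemes over all
fields, and the parity and modular versions of branching programs (is the number of accepting paths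
nonzero in `K`) are span programs.

We show that random span programs (first the random choice) of size at most `s` which accept the
inputs with some product one, or which accept the inputs with all products zero, with error
probability at most `1 / 3`, need `n ^ 3 ≤ 4000 w (n √(log₂ |K|) + 63 (c + log₂ n) w) s`, that is, size of
the order `n ^ 2` for every fixed field (also `K = ZMod 2`) and constant `w`, as long as the words have
at most `n` bits: on the average every one of the `n` pairs has to be read about `n` times.

Proof. The pair `(u_i, v_i)` can ask for each of the `n ^ 2` entries of the matrix. If `r` leaves
see an item, then for fixed other items the coefficients of the live vectors which complete a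
combination form an affine subspace of `K ^ r` or the empty set, so there are at most
`2 |K| ^ (r ^ 2 + r)` possibilities, and the guards take `2 ^ O (r log n)` different functions of the
item (Warren's bound, `Pool.Agent.Y638.RF.Core`); the rest is Nechiporuk's method with random
strings (`Pool.Agent.Run7.h412.SP.Core`, `Pool.Agent.Run7.h412.SP.Lower`).
-/

set_option autoImplicit false

namespace Pool.Agent.Results.MP_0f1f76_lc.SpanPrograms

open Pool.Agent.TH697.Form (IsProb)
open Pool.Agent.TH697.Row (ApproximatesOn)
open Pool.Agent.Y638.RF.Xor (Item product)
open Pool.Agent.Run7.h412.SP (SpanProgram)

theorem result : ∀ (K : Type) [Field K] [Fintype K] (n c w : ℕ), 32 ≤ n → 1 ≤ c → 1 ≤ w →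
    ∀ (Ω : Type) [Fintype Ω] (μ : Ω → ℝ), IsProb μ →
      ∀ (s : ℕ) (N : Ω → SpanProgram K (Option (Fin n)) (Item n) w (2 ^ c)),
        (∀ ω, (N ω).size ≤ s) →
        (ApproximatesOn μ (fun ω => (N ω).eval) (fun _ => True) (product n) ∨
          ApproximatesOn μ (fun ω x => !(N ω).eval x) (fun _ => True) (product n)) →
        (n : ℝ) ^ 3 ≤ 4000 * w * (n * √(Real.logb 2 (Fintype.card K)) +
          63 * (c + Real.logb 2 n) * w) * s :=
  fun _ _ _ _ _ _ hn hc hw _ _ μ hμ s N hs hN =>
    Pool.Agent.Run7.h412.SP.OuMv.bound_xor hn hc hw μ hμ s N hs hN

end Pool.Agent.Results.MP_0f1f76_lc.SpanPrograms
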